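import Pool.Agent.LFT.Reach
import Pool.Agent.LFT.Line
import Pool.Agent.LFT.LineBound
import Pool.Agent.LFT.Cover
import Pool.Agent.LFT.Tent
import Pool.Agent.LFT.Avg
import Pool.Agent.LFT.HFinal
import Pool.Agent.LFT.HInt
import Pool.Agent.LFT.HIneq
import Pool.Agent.LFT.HMem
import Pool.Agent.LFT.HPath
import Pool.Agent.LFT.HDet0
import Pool.Agent.LFT.HDet
import Pool.Agent.LFT.HNorm
import Pool.Agent.LFT.HGraph
import Pool.Agent.LFT.HTile
import Pool.Agent.LFT.HFam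

/-!
# Hexagons with the properties (S) and (H) of L. Fejes Toth (MP_9c589f_co, Q1 and Q2)
-/

namespace Pool.Agent.Results.MP_9c589f_co.HexagonSH

open Pool.Agent.LFT

/-- Let `K` be a centrally symmetric convex hexagon with edge vectors `g1`, `g2`, `g3` and
`NH v = (1/|K|) ∫_{∂K} |v × p| ds` (origin at the centre).  If `NH` is maximal, among the vectors
of the same length, at the main diagonal `g1 + g2 + g3`, then `K` has the properties (S) and (H).
This is so for the isosceles hexagons with vertices `(±w, ±s/2)`, `(0, ±(s/2 + t))` for which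
`l (s + 2 t)² ≤ 2 w² (l + s)` and `4 l (s + t) + s² ≤ 4 w (l + s)`, where `l = √(w² + t²)`. -/
theorem result :
    (∀ z g1 g2 g3 : E, Pos3 g1 g2 g3 →
      (∀ v, ‖v‖ = ‖g1 + g2 + g3‖ → NH g1 g2 g3 v ≤ NH g1 g2 g3 (g1 + g2 + g3)) →
      PropertyS (Hex z g1 g2 g3) ∧ PropertyH (Hex z g1 g2 g3)) ∧
    (∀ (z : E) (w s t l : ℝ), 0 < w → 0 < s → 0 < t → l = √(w ^ 2 + t ^ 2) →
      l * (s + 2 * t) ^ 2 ≤ 2 * w ^ 2 * (l + s) → 4 * l * (s + t) + s ^ 2 ≤ 4 * w * (l + s) →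
      PropertyS (Hex z !₂[w, t] !₂[0, s] !₂[-w, t]) ∧
        PropertyH (Hex z !₂[w, t] !₂[0, s] !₂[-w, t])) := by
  have main : ∀ z g1 g2 g3 : E, Pos3 g1 g2 g3 →
      (∀ v, ‖v‖ = ‖g1 + g2 + g3‖ → NH g1 g2 g3 v ≤ NH g1 g2 g3 (g1 + g2 + g3)) →
      PropertyS (Hex z g1 g2 g3) ∧ PropertyH (Hex z g1 g2 g3) := by
    intro z g1 g2 g3 hpos hmax
    have hS := HFinal.hfinal
      (avg_proof tent_proof (lineBound_proof reach_proof line_proof) cover_proof)
      (hdet_proof (hdet0_proof hint_proof (hmem_proof hineq_proof) (hpath_proof hineq_proof)))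
      hnorm_proof (htile_proof (hgraph_proof hineq_proof) hineq_proof) z g1 g2 g3 hpos hmax
    exact ⟨hS, HFinal.S_to_H hS⟩
  refine ⟨main, ?_⟩
  intro z w s t l hw hs ht hl h1 h2
  obtain ⟨hpos, hmax⟩ := hfam_proof w s t l hw hs ht hl h1 h2
  exact main z _ _ _ hpos hmax

end Pool.Agent.Results.MP_9c589f_co.HexagonSH
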