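import Pool.Agent.LFT.Final
import Pool.Agent.LFT.Reach
import Pool.Agent.LFT.Line
import Pool.Agent.LFT.LineBound
import Pool.Agent.LFT.Cover
import Pool.Agent.LFT.Tent
import Pool.Agent.LFT.Avg
import Pool.Agent.LFT.Para0
import Pool.Agent.LFT.Para
import Pool.Agent.LFT.Norm
import Pool.Agent.LFT.Graph
import Pool.Agent.LFT.Tile

/-!
# Every parallelogram has property (S) of L. Fejes Toth (MP_9c589f_co, Q1)
-/

namespace Pool.Agent.Results.MP_9c589f_co.ParallelogramS

open Pool.Agent.LFT

/-- Every parallelogram has property (S): for every layer of bodies similar to it there is a layer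
of translates of it whose permeability is at most as large. -/
theorem result : ∀ z e f : E, LinearIndependent ℝ ![e, f] → PropertyS (Para z e f) :=
  fun z e f hef => Final.final (avg_proof tent_proof (lineBound_proof reach_proof line_proof) cover_proof)
    (para_proof para0_proof) norm_proof tile_proof z e f hef

end Pool.Agent.Results.MP_9c589f_co.ParallelogramS
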