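import Pool.Agent.LFT.TriAll

/-!
# No triangle has property (S) of L. Fejes Toth (MP_9c589f_co, Q1)
-/

namespace Pool.Agent.Results.MP_9c589f_co.TriangleNotS

open Pool.Agent.LFT

/-- the convex hull of three points is the triangle `Tri`. -/
theorem hull_eq (A B C : E) : convexHull ℝ {A, B, C} = Tri A (B - A) (C - A) := by
  rw [convexHull_insert (by simp), convexHull_pair]
  ext p
  simp only [convexJoin_singleton_left, Set.mem_iUnion]
  constructor
  · rintro ⟨q, hq, hp⟩
    rw [segment_eq_image] at hq hp
    obtain ⟨t, ⟨ht0, ht1⟩, rfl⟩ := hq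
    obtain ⟨s, ⟨hs0, hs1⟩, rfl⟩ := hp
    refine ⟨s * (1 - t), s * t, mul_nonneg hs0 (by linarith), mul_nonneg hs0 ht0, ?_, ?_⟩
    · have : s * (1 - t) + s * t = s := by ring
      rw [this]; exact hs1
    · simp only
      module
  · rintro ⟨s, t, hs, ht, hst, rfl⟩
    rcases eq_or_lt_of_le (add_nonneg hs ht) with h0 | h0
    · have h1 : s = 0 := by linarith
      have h2 : t = 0 := by linarith
      subst h1 h2
      refine ⟨B, left_mem_segment ℝ B C, ?_⟩
      have : A + (0 : ℝ) • (B - A) + (0 : ℝ) • (C - A) = A := by module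
      rw [this]
      exact left_mem_segment ℝ A B
    · refine ⟨(1 - t / (s + t)) • B + (t / (s + t)) • C, ?_, ?_⟩
      · rw [segment_eq_image]
        exact ⟨t / (s + t), ⟨by positivity, by rw [div_le_one h0]; linarith⟩, rfl⟩
      · rw [segment_eq_image]
        refine ⟨s + t, ⟨h0.le, hst⟩, ?_⟩
        simp only
        have h3 : (s + t) • ((1 - t / (s + t)) • B + (t / (s + t)) • C) = s • B + t • C := by
          rw [smul_add, smul_smul, smul_smul]
          congr 2
          · field_simp; ring
          · field_simp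
        rw [h3]
        module

/-- No triangle has property (S). -/
theorem result : ∀ A B C : E, AffineIndependent ℝ ![A, B, C] →
    ¬ PropertyS (convexHull ℝ {A, B, C}) := by
  intro A B C h
  rw [hull_eq]
  apply TriAll.main_all
  rw [affineIndependent_iff_linearIndependent_vsub ℝ _ (0 : Fin 3)] at h
  have h2 := h.comp (fun i : Fin 2 => (⟨i.succ, by simp⟩ : {x : Fin 3 // x ≠ 0}))
    (by intro i j hij; simpa using hij)
  have h3 : ![B - A, C - A] = (fun i : {x : Fin 3 // x ≠ 0} => ![A, B, C] i -ᵥ ![A, B, C] 0) ∘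
      (fun i : Fin 2 => (⟨i.succ, by simp⟩ : {x : Fin 3 // x ≠ 0})) := by
    funext i
    fin_cases i <;> simp
  rw [h3]
  exact h2

end Pool.Agent.Results.MP_9c589f_co.TriangleNotS
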